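import Mathlib
import Pool.Agent.Helper26.AL.GoalsC

/-!
Project AL (MP_af6c86_pr): packet CNV, convolution of asymptotics.
-/

namespace Pool.Agent.Helper56.AL

open Finset Filter Topology MeasureTheory Pool.Agent.Helper26.AL

theorem betaR (a b : ℝ) (ha : 0 < a) (hb : 1 < b) :
    ∫ x in Set.Ioi (0 : ℝ), x ^ (a - 1) * (max (1 - x) 0) ^ (b - 1) =
      Real.Gamma a * Real.Gamma b / Real.Gamma (a + b) := by
  have hb0 : 0 < b := by linarith
  rw [setIntegral_eq_of_subset_of_forall_sdiff_eq_zero (s := Set.Ioc (0 : ℝ) 1) measurableSet_Ioi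
    Set.Ioc_subset_Ioi_self]
  · have h1 := ProbabilityTheory.beta_eq_betaIntegralReal a b ha hb0
    rw [ProbabilityTheory.beta] at h1
    rw [h1, Complex.betaIntegral, intervalIntegral.integral_of_le (by norm_num),
      ← RCLike.re_to_complex, ← integral_re]
    · refine setIntegral_congr_fun measurableSet_Ioc fun x ⟨hx1, hx₂⟩ ↦ ?_
      have h2 : max (1 - x) 0 = 1 - x := max_eq_left (by linarith)
      simp only [h2]
      norm_cast
      rw [← Complex.ofReal_cpow, ← Complex.ofReal_cpow, RCLike.re_to_complex,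
        Complex.re_mul_ofReal, Complex.ofReal_re]
      all_goals linarith
    · have h3 := Complex.betaIntegral_convergent (u := a) (v := b) (by simpa) (by simpa)
      rw [intervalIntegrable_iff_integrableOn_Ioc_of_le (by simp), IntegrableOn] at h3
      exact h3
  · intro x hx
    have hx1 : 1 < x := by
      by_contra h
      exact hx.2 ⟨hx.1, by linarith⟩
    have h2 : max (1 - x) 0 = 0 := max_eq_right (by linarith)
    rw [h2, Real.zero_rpow (by linarith), mul_zero]

/-- bounded in absolute value -/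
theorem bdd {u : ℕ → ℝ} {l : ℝ} (h : Tendsto u atTop (𝓝 l)) : ∃ C, 0 ≤ C ∧ ∀ n, |u n| ≤ C := by
  obtain ⟨C, hC⟩ := (h.abs.bddAbove_range)
  refine ⟨C, (abs_nonneg (u 0)).trans (hC ⟨0, rfl⟩), fun n => hC ⟨n, rfl⟩⟩

theorem sub_cast_div (n m : ℕ) (hn : 0 < n) :
    ((n - m : ℕ) : ℝ) / n = max (1 - (m : ℝ) / n) 0 := by
  have hn' : (0 : ℝ) < n := by exact_mod_cast hn
  rcases le_total m n with h | h
  · rw [Nat.cast_sub h, max_eq_left]
    · field_simp
    · have : (m : ℝ) / n ≤ 1 := by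
        rw [div_le_one hn']
        exact_mod_cast h
      linarith
  · rw [Nat.sub_eq_zero_of_le h, max_eq_right]
    · simp
    · have : 1 ≤ (m : ℝ) / n := by
        rw [le_div_iff₀ hn']
        simpa using (by exact_mod_cast h : (n : ℝ) ≤ m)
      linarith

/-- the term of the sum -/
theorem term (f h : ℕ → ℝ) (a b : ℝ) (k m : ℕ) (hm : 1 ≤ m) (hmk : m < k) :
    (k.choose m : ℝ) * f m * h (k - m) / nrm (a + b) k =
      1 / (k : ℝ) * ((f m / nrm a m) * (h (k - m) / nrm b (k - m)) * ((m : ℝ) / k) ^ (a - 1) *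
        (((k - m : ℕ) : ℝ) / k) ^ (b - 1)) := by
  have hk : 0 < k := by omega
  have hk' : (0 : ℝ) < k := by exact_mod_cast hk
  have hm' : (0 : ℝ) < m := by exact_mod_cast hm
  have hkm' : (0 : ℝ) < ((k - m : ℕ) : ℝ) := by
    have : 0 < k - m := by omega
    exact_mod_cast this
  rw [Nat.cast_choose ℝ hmk.le]
  rw [Real.div_rpow hm'.le hk'.le, Real.div_rpow hkm'.le hk'.le]
  simp only [nrm]
  have e1 : Real.exp k = Real.exp m * Real.exp ((k - m : ℕ) : ℝ) := by
    rw [← Real.exp_add, Nat.cast_sub hmk.le]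
    congr 1
    ring
  have e2 : (k : ℝ) ^ (a + b - 1) = (k : ℝ) ^ (a - 1) * (k : ℝ) ^ (b - 1) * k := by
    rw [← Real.rpow_add hk', ← Real.rpow_add_one hk'.ne']
    congr 1
    ring
  rw [e1, e2]
  have h1 : (0 : ℝ) < (k.factorial : ℝ) := by exact_mod_cast k.factorial_pos
  have h2 : (0 : ℝ) < (m.factorial : ℝ) := by exact_mod_cast m.factorial_pos
  have h3 : (0 : ℝ) < ((k - m).factorial : ℝ) := by exact_mod_cast (k - m).factorial_pos
  have h4 : (0 : ℝ) < (k : ℝ) ^ (a - 1) := Real.rpow_pos_of_pos hk' _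
  have h5 : (0 : ℝ) < (k : ℝ) ^ (b - 1) := Real.rpow_pos_of_pos hk' _
  have h6 : (0 : ℝ) < (m : ℝ) ^ (a - 1) := Real.rpow_pos_of_pos hm' _
  have h7 : (0 : ℝ) < ((k - m : ℕ) : ℝ) ^ (b - 1) := Real.rpow_pos_of_pos hkm' _
  have h8 := Real.exp_pos (m : ℝ)
  have h9 := Real.exp_pos ((k - m : ℕ) : ℝ)
  field_simp

theorem nrm_zero (a : ℝ) (ha : 1 < a) : nrm a 0 = 0 := by
  simp only [nrm, Nat.cast_zero]
  rw [Real.zero_rpow (by linarith), mul_zero]

theorem nrm_ne (a : ℝ) (k : ℕ) (hk : 0 < k) : nrm a k ≠ 0 := by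
  have hk' : (0 : ℝ) < k := by exact_mod_cast hk
  have h1 : (0 : ℝ) < (k.factorial : ℝ) := by exact_mod_cast k.factorial_pos
  have h4 : (0 : ℝ) < (k : ℝ) ^ (a - 1) := Real.rpow_pos_of_pos hk' _
  have h8 := Real.exp_pos (k : ℝ)
  rw [nrm]
  positivity

theorem nrm_add (a b : ℝ) (k : ℕ) (hk : 0 < k) : nrm (a + b) k = nrm b k * (k : ℝ) ^ a := by
  have hk' : (0 : ℝ) < k := by exact_mod_cast hk
  rw [nrm, nrm]
  have : (k : ℝ) ^ (a + b - 1) = (k : ℝ) ^ (b - 1) * (k : ℝ) ^ a := by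
    rw [← Real.rpow_add hk']
    congr 1
    ring
  rw [this]
  ring

theorem ends (c : ℝ) (u : ℕ → ℝ) (a b : ℝ) (β : ℝ) (ha : 0 < a)
    (hu : Tendsto (fun k => u k / nrm b k) atTop (𝓝 β)) :
    Tendsto (fun k => c * u k / nrm (a + b) k) atTop (𝓝 0) := by
  have h1 : Tendsto (fun k : ℕ => (k : ℝ) ^ (-a)) atTop (𝓝 0) :=
    (tendsto_rpow_neg_atTop ha).comp tendsto_natCast_atTop_atTop
  have h2 : Tendsto (fun k : ℕ => c * (u k / nrm b k) * (k : ℝ) ^ (-a)) atTop (𝓝 (c * β * 0)) :=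
    (hu.const_mul c).mul h1
  rw [mul_zero] at h2
  refine h2.congr' ?_
  filter_upwards [eventually_gt_atTop 0] with k hk
  have hk' : (0 : ℝ) < k := by exact_mod_cast hk
  rw [nrm_add a b k hk, Real.rpow_neg hk'.le]
  have := nrm_ne b k hk
  have h3 : (0 : ℝ) < (k : ℝ) ^ a := Real.rpow_pos_of_pos hk' _
  field_simp

theorem goalCNV (hRS : StmtRS) : StmtCNV := by
  intro i j f h α β hi hj hf hh
  have hi' : (1 : ℝ) ≤ i := by exact_mod_cast hi
  have hj' : (1 : ℝ) ≤ j := by exact_mod_cast hj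
  obtain ⟨a, ha⟩ : ∃ a : ℝ, a = 3 * (i : ℝ) / 2 := ⟨_, rfl⟩
  obtain ⟨b, hb⟩ : ∃ b : ℝ, b = 3 * (j : ℝ) / 2 := ⟨_, rfl⟩
  have ha1 : 1 < a := by rw [ha]; linarith
  have hb1 : 1 < b := by rw [hb]; linarith
  obtain ⟨α', hα'⟩ : ∃ α' : ℝ, α' = α / (2 ^ a * Real.Gamma a) := ⟨_, rfl⟩
  obtain ⟨β', hβ'⟩ : ∃ β' : ℝ, β' = β / (2 ^ b * Real.Gamma b) := ⟨_, rfl⟩
  have hf' : Tendsto (fun k => f k / nrm a k) atTop (𝓝 α') := by
    rw [hα', ha]; exact hf
  have hh' : Tendsto (fun k => h k / nrm b k) atTop (𝓝 β') := by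
    rw [hβ', hb]; exact hh
  obtain ⟨CA, hCA0, hCA⟩ := bdd hf'
  obtain ⟨CB, hCB0, hCB⟩ := bdd hh'
  let F : ℕ → ℕ → ℝ := fun n m => (f m / nrm a m) * (h (n - m) / nrm b (n - m)) *
    ((m : ℝ) / n) ^ (a - 1) * (((n - m : ℕ) : ℝ) / n) ^ (b - 1)
  have hF0 : ∀ n m, n ≤ m → F n m = 0 := by
    intro n m hnm
    simp only [F]
    rw [Nat.sub_eq_zero_of_le hnm, nrm_zero b hb1]
    simp
  have hle1 : ∀ n m : ℕ, m ≤ n → (m : ℝ) / n ≤ 1 := by
    intro n m hmn
    exact div_le_one_of_le₀ (by exact_mod_cast hmn) (Nat.cast_nonneg n)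
  have hFb : ∀ n m, |F n m| ≤ CA * CB * (((n - m : ℕ) : ℝ) / n) ^ (b - 1) := by
    intro n m
    have hz : (0 : ℝ) ≤ (((n - m : ℕ) : ℝ) / n) ^ (b - 1) := Real.rpow_nonneg (by positivity) _
    rcases le_total n m with h1 | h1
    · rw [hF0 n m h1, abs_zero]
      positivity
    · have h2 : (0 : ℝ) ≤ ((m : ℝ) / n) ^ (a - 1) := Real.rpow_nonneg (by positivity) _
      have h3 : ((m : ℝ) / n) ^ (a - 1) ≤ 1 :=
        Real.rpow_le_one (by positivity) (hle1 n m h1) (by linarith)
      simp only [F]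
      rw [abs_mul, abs_mul, abs_mul, abs_of_nonneg hz, abs_of_nonneg h2]
      have h4 : |f m / nrm a m| * |h (n - m) / nrm b (n - m)| ≤ CA * CB :=
        mul_le_mul (hCA m) (hCB _) (abs_nonneg _) hCA0
      have h5 : |f m / nrm a m| * |h (n - m) / nrm b (n - m)| * ((m : ℝ) / n) ^ (a - 1) ≤
          CA * CB * 1 := mul_le_mul h4 h3 h2 (by positivity)
      calc _ ≤ CA * CB * 1 * (((n - m : ℕ) : ℝ) / n) ^ (b - 1) :=
            mul_le_mul_of_nonneg_right h5 hz
        _ = _ := by ring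
  let φ : ℝ → ℝ := fun x => α' * β' * (x ^ (a - 1) * (max (1 - x) 0) ^ (b - 1))
  let D : ℝ → ℝ := Set.indicator (Set.Iic 1) (fun _ => CA * CB)
  have hmain := hRS (fun n => 1 / (n : ℝ)) F φ D (fun n => n) ?_ ?_ ?_ ?_ ?_ ?_
  · have hint : (∫ x in Set.Ioi (0 : ℝ), φ x) = α * β / (2 ^ (a + b) * Real.Gamma (a + b)) := by
      simp only [φ]
      rw [integral_const_mul, betaR a b (by linarith) hb1, hα', hβ',
        Real.rpow_add (by norm_num : (0 : ℝ) < 2)]
      have h1 := (Real.Gamma_pos_of_pos (by linarith : 0 < a)).ne'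
      have h2 := (Real.Gamma_pos_of_pos (by linarith : 0 < b)).ne'
      have h3 := (Real.Gamma_pos_of_pos (by linarith : 0 < a + b)).ne'
      have h4 : (2 : ℝ) ^ a ≠ 0 := (Real.rpow_pos_of_pos (by norm_num) _).ne'
      have h5 : (2 : ℝ) ^ b ≠ 0 := (Real.rpow_pos_of_pos (by norm_num) _).ne'
      field_simp
    rw [hint] at hmain
    have e0 : Tendsto (fun k => f 0 * h k / nrm (a + b) k) atTop (𝓝 0) :=
      ends (f 0) h a b β' (by linarith) hh'
    have e1 : Tendsto (fun k => h 0 * f k / nrm (b + a) k) atTop (𝓝 0) :=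
      ends (h 0) f b a α' (by linarith) hf'
    have hsum := (hmain.add e0).add e1
    rw [add_zero, add_zero] at hsum
    have hab : 3 * ((i + j : ℕ) : ℝ) / 2 = a + b := by
      rw [ha, hb]; push_cast; ring
    unfold AS
    rw [hab]
    refine hsum.congr' ?_
    filter_upwards [eventually_gt_atTop 1] with k hk
    have hk0 : 0 < k := by omega
    have hr : range (k + 1) = insert 0 (insert k (Ico 1 k)) := by
      ext m
      simp only [mem_range, mem_insert, mem_Ico]
      omega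
    have hr2 : Icc 1 k = insert k (Ico 1 k) := by
      ext m
      simp only [mem_Icc, mem_insert, mem_Ico]
      omega
    have hkn : k ∉ Ico 1 k := by simp
    have h0n : 0 ∉ insert k (Ico 1 k) := by
      simp only [mem_insert, mem_Ico]
      omega
    rw [hr, sum_insert h0n, sum_insert hkn, hr2, sum_insert hkn, hF0 k k le_rfl, zero_add,
      Finset.mul_sum]
    have hterm : ∑ m ∈ Ico 1 k, 1 / (k : ℝ) * F k m =
        (∑ m ∈ Ico 1 k, (k.choose m : ℝ) * f m * h (k - m)) / nrm (a + b) k := by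
      rw [Finset.sum_div]
      refine Finset.sum_congr rfl fun m hm => ?_
      rw [mem_Ico] at hm
      exact (term f h a b k m hm.1 hm.2).symm
    rw [hterm, add_comm b a]
    simp only [Nat.choose_zero_right, Nat.choose_self, Nat.cast_one, Nat.sub_zero, Nat.sub_self]
    ring
  · filter_upwards [eventually_gt_atTop 0] with n hn
    positivity
  · exact tendsto_one_div_atTop_nhds_zero_nat
  · simp only [D]
    rw [integrableOn_indicator_iff measurableSet_Iic]
    have : Set.Iic (1 : ℝ) ∩ Set.Ioi 0 = Set.Ioc 0 1 := by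
      ext x; simp [and_comm]
    rw [this]
    exact integrableOn_const measure_Ioc_lt_top.ne
  · intro n k hk
    exact hF0 n k (le_of_lt hk)
  · filter_upwards [eventually_gt_atTop 0] with n hn k hk x hx1 hx2
    have hn' : (0 : ℝ) < n := by exact_mod_cast hn
    have hz : (0 : ℝ) ≤ (((n - k : ℕ) : ℝ) / n) ^ (b - 1) := Real.rpow_nonneg (by positivity) _
    rcases le_total k n with h1 | h1
    · have hx : x ≤ 1 := by
        have h2 : 1 / (n : ℝ) * k ≤ 1 := by
          rw [one_div, inv_mul_le_iff₀ hn', mul_one]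
          exact_mod_cast h1
        linarith
      have hD : D x = CA * CB := by
        simp only [D]
        rw [Set.indicator_of_mem (by simpa using hx)]
      rw [hD]
      have h3 : (((n - k : ℕ) : ℝ) / n) ^ (b - 1) ≤ 1 :=
        Real.rpow_le_one (by positivity) (hle1 n _ (Nat.sub_le n k)) (by linarith)
      calc |F n k| ≤ CA * CB * (((n - k : ℕ) : ℝ) / n) ^ (b - 1) := hFb n k
        _ ≤ CA * CB * 1 := mul_le_mul_of_nonneg_left h3 (by positivity)
        _ = CA * CB := mul_one _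
    · rw [hF0 n k h1, abs_zero]
      exact Set.indicator_nonneg (fun _ _ => by positivity) x
  · intro x hx κ hκ
    have hκ' : Tendsto (fun n : ℕ => (κ n : ℝ) / n) atTop (𝓝 x) := by
      refine hκ.congr fun n => ?_
      ring
    have hsub : Tendsto (fun n : ℕ => ((n - κ n : ℕ) : ℝ) / n) atTop (𝓝 (max (1 - x) 0)) := by
      have h1 : Tendsto (fun n : ℕ => max (1 - (κ n : ℝ) / n) 0) atTop (𝓝 (max (1 - x) 0)) :=
        (tendsto_const_nhds.sub hκ').max tendsto_const_nhds
      refine h1.congr' ?_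
      filter_upwards [eventually_gt_atTop 0] with n hn
      exact (sub_cast_div n (κ n) hn).symm
    have hsubp : Tendsto (fun n : ℕ => (((n - κ n : ℕ) : ℝ) / n) ^ (b - 1)) atTop
        (𝓝 ((max (1 - x) 0) ^ (b - 1))) :=
      hsub.rpow_const (Or.inr (by linarith))
    rcases lt_or_ge x 1 with hx1 | hx1
    · have hat : ∀ (u : ℕ → ℕ) (y : ℝ), 0 < y → Tendsto (fun n : ℕ => (u n : ℝ) / n) atTop (𝓝 y) →
          Tendsto u atTop atTop := by
        intro u y hy hu
        have h1 : Tendsto (fun n : ℕ => (u n : ℝ) / n * n) atTop atTop :=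
          hu.pos_mul_atTop hy tendsto_natCast_atTop_atTop
        have h2 : Tendsto (fun n : ℕ => (u n : ℝ)) atTop atTop := by
          refine h1.congr' ?_
          filter_upwards [eventually_gt_atTop 0] with n hn
          have : (n : ℝ) ≠ 0 := by positivity
          field_simp
        exact tendsto_natCast_atTop_iff.mp h2
      have h1 : Tendsto κ atTop atTop := hat κ x hx hκ'
      have h2 : Tendsto (fun n => n - κ n) atTop atTop := by
        refine hat _ (max (1 - x) 0) ?_ hsub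
        rw [lt_max_iff]
        left
        linarith
      have h3 : Tendsto (fun n : ℕ => ((κ n : ℝ) / n) ^ (a - 1)) atTop (𝓝 (x ^ (a - 1))) :=
        hκ'.rpow_const (Or.inr (by linarith))
      have h4 := (((hf'.comp h1).mul (hh'.comp h2)).mul h3).mul hsubp
      simp only [φ]
      rw [← mul_assoc]
      exact h4
    · have hφ : φ x = 0 := by
        simp only [φ]
        rw [max_eq_right (by linarith : 1 - x ≤ 0), Real.zero_rpow (by linarith), mul_zero, mul_zero]
      rw [hφ]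
      have h5 : Tendsto (fun n : ℕ => CA * CB * (((n - κ n : ℕ) : ℝ) / n) ^ (b - 1)) atTop (𝓝 0) := by
        have h6 := hsubp.const_mul (CA * CB)
        rw [max_eq_right (by linarith : 1 - x ≤ 0), Real.zero_rpow (by linarith), mul_zero] at h6
        exact h6
      exact squeeze_zero_norm (fun n => hFb n (κ n)) h5

end Pool.Agent.Helper56.AL
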