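import Mathlib
import Pool.Agent.Helper26.AL.GoalsA

/-!
Project AL (MP_af6c86_pr): packet FDB, attaching a forest.
-/

set_option autoImplicit false

namespace Pool.Agent.Helper56.AL

open Finset
open Pool.Agent.Helper26.AF Pool.Agent.Helper26.AL Pool.Agent.Helper16.AF

theorem goalFDB (hLFG : Pool.Agent.Helper26.AL.StmtLFG) (hINV0 : Pool.Agent.Helper26.AL.StmtINV0) :
    Pool.Agent.Helper26.AL.StmtFDB := by
  intro k S Γ f h
  have key : ∀ n : ℕ, ∀ W : Finset (Fin k), S ⊆ W → (∀ x ∈ W, f x ∈ W) → #(W \ S) = n →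
      (CXG (gi (gr S Γ f) S) ↔ CXG (gi (gr S Γ f) W)) ∧
      ∀ g, (Embeds (gi (gr S Γ f) S) g ↔ Embeds (gi (gr S Γ f) W) g) := by
    intro n
    induction n with
    | zero =>
      intro W hSW _ hn
      rw [Finset.card_eq_zero, Finset.sdiff_eq_empty_iff_subset] at hn
      have : W = S := Finset.Subset.antisymm hn hSW
      subst this
      exact ⟨Iff.rfl, fun _ => Iff.rfl⟩
    | succ n ih =>
      intro W hSW hW hn
      have hne : (W \ S).Nonempty := by
        rw [← Finset.card_pos]; omega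
      obtain ⟨x, hx, hmax⟩ := Finset.exists_max_image (W \ S) (dep h) hne
      have hx2 := hx
      rw [mem_sdiff] at hx2
      obtain ⟨hxW, hxS⟩ := hx2
      have hdeep : ∀ z ∈ W, z ∉ S → f z ≠ x := by
        intro z hz hzS hzx
        have h1 := hmax z (mem_sdiff.2 ⟨hz, hzS⟩)
        have h2 := dep_lt h hzS
        rw [hzx] at h2
        omega
      have h1 := hLFG k (gr S Γ f) W x (f x) hxW (hW x hxW) ((gr_adj_out h hxS).2 (Or.inl rfl)) ?_
      · have h2 := ih (W.erase x) ?_ ?_ ?_
        · exact ⟨h2.1.trans h1.1, fun g => (h2.2 g).trans (h1.2 g)⟩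
        · intro z hz
          rw [mem_erase]
          exact ⟨fun hzx => hxS (hzx ▸ hz), hSW hz⟩
        · intro z hz
          rw [mem_erase] at hz ⊢
          refine ⟨fun hzx => ?_, hW z hz.2⟩
          by_cases hzS : z ∈ S
          · exact hz.1 ((h.1 z hzS).symm.trans hzx)
          · exact hdeep z hz.2 hzS hzx
        · rw [Finset.erase_sdiff_comm, Finset.card_erase_of_mem hx, hn]
          rfl
      · intro z hz hxz
        rw [gr_adj_out h hxS] at hxz
        rcases hxz with h2 | ⟨h2, h3⟩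
        · exact h2.symm
        · exact absurd h3 (hdeep z hz h2)
  have h1 := key _ univ (Finset.subset_univ S) (fun _ _ => Finset.mem_univ _) rfl
  have hS : gi (gr S Γ f) S = Γ := gr_comap h
  rw [hS] at h1
  have hbij : Function.Bijective ((univ : Finset (Fin k)).orderEmbOfFin rfl) := by
    refine ⟨((univ : Finset (Fin k)).orderEmbOfFin rfl).injective, fun y => ?_⟩
    have h2 : y ∈ Set.range ((univ : Finset (Fin k)).orderEmbOfFin rfl) := by
      rw [Finset.range_orderEmbOfFin]; simp
    exact h2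
  have h2 := hINV0 (Fin k) (Fin #(univ : Finset (Fin k))) (Equiv.ofBijective _ hbij) (gr S Γ f)
  have h3 : (gr S Γ f).comap (Equiv.ofBijective _ hbij) = gi (gr S Γ f) univ := rfl
  rw [h3] at h2
  obtain ⟨h4, -, -, -, -, h5⟩ := h2
  exact ⟨(h1.1.trans h4).symm, fun g => ((h1.2 g).trans (h5 g)).symm⟩

end Pool.Agent.Helper56.AL
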