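import Mathlib
import Pool.Agent.Helper26.AL.GoalsA
import Pool.Agent.Helper26.AF.Goals3
import Pool.Agent.Helper69.AF.UPP
import Pool.Agent.Helper90.AF.EXPB

/-!
Project AL (MP_af6c86_pr): packet UPE.
-/

set_option autoImplicit false

namespace Pool.Agent.Helper56.AL

open Finset Filter Topology
open Pool.Agent.Helper26.AF Pool.Agent.Helper26.AL Pool.Agent.Helper69.AF

theorem expe (hEXE : StmtEXE) (n R : ℕ) (p t C : ℝ) (A : ℕ → ℝ) (hp0 : 0 < p) (hp1 : p < 1)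
    (ht : 1 ≤ t) (hC : 0 ≤ C) (hA0 : ∀ k, 0 ≤ A k) (hA1 : A 0 = 1)
    (hA2 : ∀ a b, A (a + b) ≤ A a * A b)
    (hA3 : ∀ k ≤ n, (n.descFactorial k : ℝ) * (1 - p) ^ (k * (n - k) + k.choose 2) ≤ C * A k) :
    EE p (fun G : SimpleGraph (Fin n) => t ^ ZR R G)
      ≤ C * Real.exp (∑ j ∈ Icc 1 n, yy t (p / (1 - p)) R j * A j / (j.factorial : ℝ)) := by
  refine (hEXE n R p t hp0 hp1 ht).trans ?_
  set u : ℝ := p / (1 - p) with hu
  have hu0 : 0 ≤ u := div_nonneg hp0.le (by linarith)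
  set S : ℝ := ∑ j ∈ Icc 1 n, yy t u R j * A j / (j.factorial : ℝ) with hS
  have hterm : ∀ j : ℕ, 0 ≤ yy t u R j * A j / (j.factorial : ℝ) := fun j =>
    div_nonneg (mul_nonneg (Pool.Agent.Helper90.AF.yy_nonneg (by linarith) hu0 R j) (hA0 j))
      (Nat.cast_nonneg _)
  have hS0 : 0 ≤ S := Finset.sum_nonneg fun j _ => hterm j
  have hin : ∀ q : ℕ, ∑ j ∈ Fintype.piFinset (fun _ : Fin q => Icc 1 n),
          ((n.descFactorial (∑ i, j i) : ℝ) / ∏ i, ((j i).factorial : ℝ)) *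
          (1 - p) ^ ((∑ i, j i) * (n - ∑ i, j i) + (∑ i, j i).choose 2) *
          ∏ i, yy t u R (j i) ≤ C * S ^ q := by
    intro q
    have h1 : S ^ q = ∑ j ∈ Fintype.piFinset (fun _ : Fin q => Icc 1 n),
        ∏ i, (yy t u R (j i) * A (j i) / ((j i).factorial : ℝ)) := by
      rw [← Finset.prod_univ_sum (fun _ : Fin q => Icc 1 n)
        (fun _ j => yy t u R j * A j / (j.factorial : ℝ)), Finset.prod_const, Finset.card_univ,
        Fintype.card_fin]
    rw [h1, Finset.mul_sum]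
    refine Finset.sum_le_sum fun j _ => ?_
    have hprod : ∏ i, (yy t u R (j i) * A (j i) / ((j i).factorial : ℝ)) =
        (∏ i, yy t u R (j i)) * (∏ i, A (j i)) / ∏ i, ((j i).factorial : ℝ) := by
      rw [Finset.prod_div_distrib, Finset.prod_mul_distrib]
    have hy : 0 ≤ ∏ i, yy t u R (j i) := Finset.prod_nonneg fun i _ =>
      Pool.Agent.Helper90.AF.yy_nonneg (by linarith) hu0 R _
    have hf : 0 < ∏ i, ((j i).factorial : ℝ) := Finset.prod_pos fun i _ => by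
      exact_mod_cast (j i).factorial_pos
    have hk : (n.descFactorial (∑ i, j i) : ℝ) *
        (1 - p) ^ ((∑ i, j i) * (n - ∑ i, j i) + (∑ i, j i).choose 2) ≤ C * ∏ i, A (j i) := by
      rcases le_or_gt (∑ i, j i) n with h | h
      · exact (hA3 _ h).trans (mul_le_mul_of_nonneg_left
          (Pool.Agent.Helper90.AF.submul hA0 hA1 hA2 univ j) hC)
      · rw [Nat.descFactorial_eq_zero_iff_lt.2 h]
        simp only [Nat.cast_zero, zero_mul]
        exact mul_nonneg hC (Finset.prod_nonneg fun i _ => hA0 _)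
    rw [hprod]
    calc ((n.descFactorial (∑ i, j i) : ℝ) / ∏ i, ((j i).factorial : ℝ)) *
          (1 - p) ^ ((∑ i, j i) * (n - ∑ i, j i) + (∑ i, j i).choose 2) *
          ∏ i, yy t u R (j i)
        = ((n.descFactorial (∑ i, j i) : ℝ) *
          (1 - p) ^ ((∑ i, j i) * (n - ∑ i, j i) + (∑ i, j i).choose 2)) *
          ((∏ i, yy t u R (j i)) / ∏ i, ((j i).factorial : ℝ)) := by ring
      _ ≤ (C * ∏ i, A (j i)) * ((∏ i, yy t u R (j i)) / ∏ i, ((j i).factorial : ℝ)) :=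
          mul_le_mul_of_nonneg_right hk (div_nonneg hy hf.le)
      _ = _ := by ring
  calc ∑ q ∈ range (n + 1), (1 / (q.factorial : ℝ)) *
        ∑ j ∈ Fintype.piFinset (fun _ : Fin q => Icc 1 n),
          ((n.descFactorial (∑ i, j i) : ℝ) / ∏ i, ((j i).factorial : ℝ)) *
          (1 - p) ^ ((∑ i, j i) * (n - ∑ i, j i) + (∑ i, j i).choose 2) *
          ∏ i, yy t u R (j i)
      ≤ ∑ q ∈ range (n + 1), (1 / (q.factorial : ℝ)) * (C * S ^ q) :=
        Finset.sum_le_sum fun q _ => mul_le_mul_of_nonneg_left (hin q) (by positivity)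
    _ = C * ∑ q ∈ range (n + 1), S ^ q / (q.factorial : ℝ) := by
        rw [Finset.mul_sum]
        exact Finset.sum_congr rfl fun q _ => by ring
    _ ≤ C * Real.exp S := mul_le_mul_of_nonneg_left (Real.sum_le_exp_of_nonneg hS0 _) hC

theorem yy_mono {t u : ℝ} (ht : 0 ≤ t) (hu : 0 ≤ u) {R R' : ℕ} (hR : R ≤ R') (j : ℕ) :
    yy t u R j ≤ yy t u R' j := by
  unfold yy
  exact Finset.sum_le_sum_of_subset_of_nonneg (Finset.Icc_subset_Icc_right hR)
    fun r _ _ => by positivity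

theorem goalUPE (hEXE : Pool.Agent.Helper26.AL.StmtEXE) (hFAL : Pool.Agent.Helper26.AF.StmtFAL)
    (hWR : Pool.Agent.Helper26.AF.StmtWR) : Pool.Agent.Helper26.AL.StmtUPE := by
  intro l t ht1 ht2
  obtain ⟨δ, hδ0, hδ1, c, hc, C, hC, n₀, hn₀⟩ := hWR l t ht1 ht2
  obtain ⟨C₁, hC₁, n₁, hn₁⟩ := hFAL l δ hδ0 (by linarith)
  refine ⟨C₁ * Real.exp C, by positivity, fun R => ?_⟩
  have hcn : ∀ᶠ n : ℕ in atTop, R ≤ ⌊c * n⌋₊ := by
    have h1 : Tendsto (fun n : ℕ => c * (n : ℝ)) atTop atTop :=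
      tendsto_natCast_atTop_atTop.const_mul_atTop hc
    filter_upwards [h1.eventually_ge_atTop (R : ℝ)] with n hn
    exact Nat.le_floor hn
  filter_upwards [hcn, pc_event' l, eventually_ge_atTop n₀, eventually_ge_atTop n₁] with n h1 h2 h3 h4
  have hE := expe hEXE n R (pc l n) t C₁ (AA l δ n) h2.1 h2.2 ht1.le hC₁.le (AA_nonneg l δ n)
    (AA_zero l δ n) (AA_add l δ (by linarith) n) (fun k hk => hn₁ n h4 k hk)
  have hS : (∑ j ∈ Icc 1 n, yy t (pc l n / (1 - pc l n)) ⌊c * n⌋₊ j * AA l δ n j /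
      (j.factorial : ℝ)) ≤ C := hn₀ n h3
  have hu0 : 0 ≤ pc l n / (1 - pc l n) := div_nonneg h2.1.le (by linarith [h2.2])
  have hS2 : (∑ j ∈ Icc 1 n, yy t (pc l n / (1 - pc l n)) R j * AA l δ n j /
      (j.factorial : ℝ)) ≤ C := by
    refine le_trans (Finset.sum_le_sum fun j _ => ?_) hS
    exact div_le_div_of_nonneg_right (mul_le_mul_of_nonneg_right
      (yy_mono (by linarith) hu0 h1 j) (AA_nonneg l δ n j)) (Nat.cast_nonneg _)
  exact hE.trans (mul_le_mul_of_nonneg_left (Real.exp_le_exp.2 hS2) hC₁.le)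

end Pool.Agent.Helper56.AL
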